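import Mathlib

namespace Pool.Agent.Results.MP_81fdd0_co.Counter

open FreeGroup

section defs
variable {α : Type} [DecidableEq α]

/-- the reduced word of `w` properly overlaps the reduced word of `w'` -/
def PO (w w' : FreeGroup α) : Prop := ∃ x : List (α × Bool), x ≠ [] ∧ x <:+ w.toWord ∧
  x <+: w'.toWord ∧ x.length < w.toWord.length ∧ x.length < w'.toWord.length

/-- non-self-overlapping -/
def NSO (w : FreeGroup α) : Prop := w ≠ 1 ∧ ¬ ∃ x : List (α × Bool), x ≠ [] ∧
  x <+: w.toWord ∧ x <:+ w.toWord ∧ x.length < w.toWord.length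

/-- adjacency in the underlying undirected graph of `OG` -/
def Adj (w w' : FreeGroup α) : Prop := PO w w' ∨ PO w' w

/-- the pairs `{w, w⁻¹}` and `{w', w'⁻¹}` are distinct and adjacent in the quotient graph -/
def QAdj (w w' : FreeGroup α) : Prop := w ≠ w' ∧ w ≠ w'⁻¹ ∧
  ∃ u ∈ ({w, w⁻¹} : Set (FreeGroup α)), ∃ v ∈ ({w', w'⁻¹} : Set (FreeGroup α)), Adj u v

end defs

abbrev W := List (Fin 3 × Bool)

def P (w : FreeGroup (Fin 3)) : Prop := ∃ z : W, w.toWord = (2, true) :: z ∧ ∀ p ∈ z, p.1 ≠ 2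

def V : Set (FreeGroup (Fin 3)) := {w | P w ∨ P w⁻¹}

theorem mem_inv {z : W} (h : ∀ p ∈ z, p.1 ≠ 2) : ∀ p ∈ invRev z, p.1 ≠ 2 := by
  intro p hp
  simp only [invRev, List.mem_reverse, List.mem_map] at hp
  obtain ⟨q, hq, rfl⟩ := hp
  exact h q hq

theorem Pinv {w : FreeGroup (Fin 3)} (h : P w⁻¹) :
    ∃ z : W, w.toWord = z ++ [(2, false)] ∧ ∀ p ∈ z, p.1 ≠ 2 := by
  obtain ⟨z, e, h⟩ := h
  refine ⟨invRev z, ?_, mem_inv h⟩
  rw [← inv_inv w, toWord_inv, e, invRev_cons]
  rfl

theorem key {u v : FreeGroup (Fin 3)} (hu : u ∈ V) (hv : v ∈ V) (h : PO u v) : P u ∧ ¬ P v := by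
  obtain ⟨x, x0, h1, h2, l1, l2⟩ := h
  constructor
  · refine hu.resolve_right fun h => ?_
    obtain ⟨z, e, -⟩ := Pinv h
    have m : (2, false) ∈ x := by
      rw [e] at h1
      obtain rfl | ⟨y, a, rfl⟩ := List.eq_nil_or_concat x
      · exact absurd rfl x0
      obtain ⟨t, ht⟩ := h1
      rw [List.concat_eq_append, ← List.append_assoc] at ht
      have := List.append_inj_right' ht rfl
      simp only [List.cons.injEq, and_true] at this
      simp [this]
    rcases hv with ⟨z, e, h⟩ | h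
    · have := h2.subset m
      rw [e] at this
      rcases List.mem_cons.1 this with h' | h'
      · simp at h'
      · exact h _ h' rfl
    · obtain ⟨z, e, h⟩ := Pinv h
      rw [e] at h2 l2
      rcases List.prefix_concat_iff.1 h2 with h' | h'
      · simp [h'] at l2
      · exact h _ (h'.subset m) rfl
  · rintro ⟨z, e, -⟩
    have m : (2, true) ∈ x := by
      rw [e] at h2
      obtain _ | ⟨a, y⟩ := x
      · exact absurd rfl x0
      simp [(List.cons_prefix_cons.1 h2).1]
    rcases hu with ⟨z, e, h⟩ | h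
    · rw [e] at h1 l1
      rcases List.suffix_cons_iff.1 h1 with h' | h'
      · simp [h'] at l1
      · exact h _ (h'.subset m) rfl
    · obtain ⟨z, e, h⟩ := Pinv h
      have := h1.subset m
      rw [e] at this
      rcases List.mem_append.1 this with h' | h'
      · exact h _ h' rfl
      · simp at h'

def Good (r : W) : Prop := IsReduced r ∧ (∀ p ∈ r, p.1 ≠ 2) ∧
  (∃ s, r.head? = some (0, s)) ∧ ∃ s, r.getLast? = some (0, s)

theorem Good.inv {r : W} (h : Good r) : Good (invRev r) := by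
  obtain ⟨a, b, ⟨s, c⟩, ⟨t, d⟩⟩ := h
  exact ⟨IsReduced.of_reduce_eq (by rw [reduce_invRev, a.reduce_eq]), mem_inv b,
    ⟨!t, by simp [invRev, List.getLast?_map, d]⟩, ⟨!s, by simp [invRev, c]⟩⟩

theorem Good.app {r q : W} (h : Good r) (h' : Good q) : Good (r ++ (1, true) :: q) := by
  obtain ⟨a, b, ⟨s, c⟩, ⟨t, d⟩⟩ := h
  obtain ⟨a', b', ⟨s', c'⟩, ⟨t', d'⟩⟩ := h'
  refine ⟨List.isChain_append.2 ⟨a, List.isChain_cons.2 ⟨?_, a'⟩, ?_⟩, ?_, ⟨s, by simp [c]⟩,
    ⟨t', ?_⟩⟩
  · simp [c']
  · simp [d]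
  · intro p hp
    rcases List.mem_append.1 hp with h | h
    · exact b p h
    · rcases List.mem_cons.1 h with rfl | h
      · simp
      · exact b' p h
  · simp [List.getLast?_append, List.getLast?_cons, d']

theorem build (N : ℕ) (s : Finset (Fin N × Fin N)) : ∃ r : Fin N → W, (∀ i, Good (r i)) ∧
    ∀ p ∈ s, p.1 ≠ p.2 → ∃ y, Good y ∧ y <+: r p.1 ∧ invRev y <+: r p.2 := by
  induction s using Finset.induction_on with
  | empty => exact ⟨fun _ => [(0, true)], fun _ => ⟨by simp, by simp, ⟨_, rfl⟩, ⟨_, rfl⟩⟩, by simp⟩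
  | insert q s _ ih =>
    obtain ⟨r, g, h⟩ := ih
    obtain ⟨i, j⟩ := q
    have gy := (g i).app (g j).inv
    let r' : Fin N → W := fun k => if k = i then r i ++ (1, true) :: invRev (r j)
      else if k = j then invRev (r i ++ (1, true) :: invRev (r j)) else r k
    have pre : ∀ k, r k <+: r' k := fun k => by
      simp only [r']
      split_ifs with h1 h2
      · exact h1 ▸ List.prefix_append _ _
      · rw [h2, invRev_append, invRev_cons, invRev_invRev, List.append_assoc]
        exact List.prefix_append _ _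
      · exact List.prefix_refl _
    refine ⟨r', fun k => ?_, fun p hp n => ?_⟩
    · simp only [r']
      split_ifs
      exacts [gy, gy.inv, g k]
    rcases Finset.mem_insert.1 hp with rfl | hp
    · exact ⟨_, gy, by simp [r'], by simp only [r', if_neg (Ne.symm n), if_true]; rfl⟩
    · obtain ⟨y, a, b, c⟩ := h p hp n
      exact ⟨y, a, b.trans (pre _), c.trans (pre _)⟩

theorem word {r : W} (g : Good r) : (mk ((2, true) :: invRev r)).toWord = (2, true) :: invRev r := by
  obtain ⟨a, -, ⟨s, c⟩, -⟩ := g.inv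
  exact toWord_mk.trans (IsReduced.reduce_eq (List.isChain_cons.2 ⟨by simp [c], a⟩))

theorem result : ∃ V : Set (FreeGroup (Fin 3)), (∀ w ∈ V, w⁻¹ ∈ V) ∧ (∀ w ∈ V, NSO w) ∧
    (∀ K : Finset (FreeGroup (Fin 3)), (K : Set (FreeGroup (Fin 3))) ⊆ V →
      (K : Set (FreeGroup (Fin 3))).Pairwise Adj → K.card ≤ 2) ∧
    ∀ N : ℕ, ∃ f : Fin N → FreeGroup (Fin 3), (∀ i, f i ∈ V) ∧
      Pairwise fun i j => QAdj (f i) (f j) := by
  classical
  refine ⟨V, fun w h => h.symm.imp_right fun h => by simpa using h, fun w h => ⟨?_, ?_⟩,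
    fun K hK h => ?_, fun N => ?_⟩
  · rintro rfl
    rcases h with ⟨z, e, -⟩ | ⟨z, e, -⟩ <;> simp at e
  · rintro ⟨x, a, b, c, d⟩
    have := key h h ⟨x, a, c, b, d, d⟩
    exact this.2 this.1
  · refine (Finset.card_le_card_of_injOn (t := Finset.univ) (fun w => decide (P w))
      (fun _ _ => Finset.mem_coe.2 (Finset.mem_univ _)) fun u hu v hv e => ?_).trans (by simp)
    by_contra n
    simp only [decide_eq_decide] at e
    rcases h hu hv n with h | h
    · have := key (hK hu) (hK hv) h; tauto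
    · have := key (hK hv) (hK hu) h; tauto
  obtain ⟨r, g, h⟩ := build N Finset.univ
  have hP : ∀ i, P (mk ((2, true) :: invRev (r i))) := fun i => ⟨_, word (g i), (g i).inv.2.1⟩
  refine ⟨fun i => mk ((2, true) :: invRev (r i)), fun i => .inl (hP i), fun i j n => ?_⟩
  obtain ⟨y, gy, a, b⟩ := h (i, j) (by simp) n
  dsimp only at a b
  have po : PO (mk ((2, true) :: invRev (r i))) (mk ((2, true) :: invRev (r j)))⁻¹ := by
    refine ⟨invRev y, ?_, ?_, ?_, ?_, ?_⟩
    · obtain ⟨-, -, ⟨s, c⟩, -⟩ := gy.inv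
      intro e; simp [e] at c
    · obtain ⟨t, ht⟩ := a
      rw [word (g i), ← ht, invRev_append]
      exact (List.suffix_append _ _).trans (List.suffix_cons _ _)
    · rw [toWord_inv, word (g j), invRev_cons, invRev_invRev]
      exact b.trans (List.prefix_append _ _)
    · have := a.length_le
      simp only [word (g i), invRev_length, List.length_cons]; omega
    · have := b.length_le
      simp only [toWord_inv, word (g j), invRev_length, List.length_cons] at this ⊢; omega
  refine ⟨fun e => ?_, fun e => ?_, _, .inl rfl, _, .inr rfl, .inl po⟩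
  · have e' := congrArg toWord e
    simp only [word (g i), word (g j), List.cons.injEq, true_and] at e'
    rw [← invRev_injective e'] at b
    have : invRev y = y := (List.prefix_of_prefix_length_le b a (by simp)).eq_of_length (by simp)
    have h2 : (mk y) ^ 2 = 1 := by
      rw [sq]; nth_rewrite 1 [← this]; rw [← inv_mk, inv_mul_cancel]
    have h3 := congrArg toWord ((pow_eq_one_iff_left two_ne_zero).1 h2)
    rw [toWord_mk, gy.1.reduce_eq] at h3
    obtain ⟨-, -, ⟨s, c⟩, -⟩ := gy
    simp [h3] at c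
  · exact (key (.inl (hP i)) (.inr (by simpa using hP j)) po).2 (e ▸ hP i)

end Pool.Agent.Results.MP_81fdd0_co.Counter
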